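import Mathlib.Tactic

/-!
# Generalised abundance: the middle range suffices

Let `X` be projective manifolds with `K_X` pseudo-effective and `L` nef line bundles on `X` such that
`L^m ⊗ K_X^*` is nef for some `m ≥ 1`. Let `s` be the numerical dimension of `K_X` and `ν` the numerical
dimension of `L`, so that `s ≤ ν ≤ dim X`. Question Q1 (is `L` numerically semiample?) is known for
`dim X ≤ 2` and, for example, for `ν = dim X`. If Q1 fails for `(X, L)` then it fails for the products with
`(E, O)`, `(E, A)` and `(C, A)`, where `E` is an elliptic curve, `C` a curve of genus two and `A` an ample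
line bundle, since a semiample divisor numerically equivalent to the exterior product restricts to one which
is numerically equivalent to `L`. Hence Q1 is equivalent to its case for the `(X, L)` with `(dim X, s, ν)` in
any set of triples on which `s`, `ν - s` and `dim X - ν` are simultaneously arbitrarily large, and for each
value of `s` separately to its case for a set on which `ν - s` and `dim X - ν` are arbitrarily large.
-/

set_option autoImplicit false

namespace Pool.Agent.Results.MP_1149f4_ag.MiddleRange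

universe u

/-- Pairs `(X, L)`: `X` is a projective manifold with `K_X` pseudo-effective, and `L` is a nef line bundle on
`X` such that `L^m ⊗ K_X^*` is nef for some `m ≥ 1`. -/
structure NefPairs where
  /-- the pairs -/
  Pair : Type u
  /-- the dimension of `X` -/
  dim : Pair → ℕ
  /-- the numerical dimension of `K_X` -/
  nuK : Pair → ℕ
  /-- the numerical dimension of `L` -/
  nu : Pair → ℕ
  /-- `L` is numerically semiample -/
  NumSemiample : Pair → Prop

/-- `(Z, M)` behaves as the product of `(X, L)` with a pair with the invariants `d`, `s` and `ν`. -/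
structure IsProductWith (T : NefPairs.{u}) (P R : T.Pair) (d s ν : ℕ) : Prop where
  /-- dimensions are additive -/
  dim : T.dim R = T.dim P + d
  /-- the numerical dimensions of the canonical bundles are additive -/
  nuK : T.nuK R = T.nuK P + s
  /-- the numerical dimensions of the line bundles are additive -/
  nu : T.nu R = T.nu P + ν
  /-- restriction to a slice -/
  restrict : T.NumSemiample R → T.NumSemiample P

/-- The known properties. -/
structure IsKnown (T : NefPairs.{u}) : Prop where
  /-- the product with an elliptic curve with the trivial bundle -/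
  elliptic : ∀ P, ∃ R, IsProductWith T P R 1 0 0
  /-- the product with an elliptic curve with an ample bundle -/
  polarized : ∀ P, ∃ R, IsProductWith T P R 1 0 1
  /-- the product with a curve of genus two with an ample bundle -/
  genusTwo : ∀ P, ∃ R, IsProductWith T P R 1 1 1

variable {T : NefPairs.{u}}

/-- Question Q1. -/
def Conjecture (T : NefPairs.{u}) : Prop := ∀ P : T.Pair, T.NumSemiample P

/-- Q1 for the pairs with `dim X = n`, numerical dimension `s` of `K_X` and `ν` of `L`. -/
def ConjectureFor (T : NefPairs.{u}) (n s ν : ℕ) : Prop :=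
  ∀ P : T.Pair, T.dim P = n → T.nuK P = s → T.nu P = ν → T.NumSemiample P

theorem iterate {d s ν : ℕ} (h : ∀ P : T.Pair, ∃ R, IsProductWith T P R d s ν) (P : T.Pair) :
    ∀ m : ℕ, ∃ R, IsProductWith T P R (m * d) (m * s) (m * ν) := by
  intro m
  induction m with
  | zero => exact ⟨P, by simp, by simp, by simp, id⟩
  | succ m ih =>
    obtain ⟨Q, hQ⟩ := ih
    obtain ⟨R, hR⟩ := h Q
    refine ⟨R, ?_, ?_, ?_, fun h1 => hQ.restrict (hR.restrict h1)⟩
    · rw [hR.dim, hQ.dim]; ring
    · rw [hR.nuK, hQ.nuK]; ring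
    · rw [hR.nu, hQ.nu]; ring

/-- counterexamples with larger invariants -/
theorem spread (hT : IsKnown T) (P : T.Pair) (a b c : ℕ) :
    ∃ R, IsProductWith T P R (a + b + c) c (b + c) := by
  obtain ⟨A, hA⟩ := iterate hT.elliptic P a
  obtain ⟨B, hB⟩ := iterate hT.polarized A b
  obtain ⟨C, hC⟩ := iterate hT.genusTwo B c
  refine ⟨C, ?_, ?_, ?_, fun h => hA.restrict (hB.restrict (hC.restrict h))⟩
  · rw [hC.dim, hB.dim, hA.dim]; ring
  · rw [hC.nuK, hB.nuK, hA.nuK]; ring
  · rw [hC.nu, hB.nu, hA.nu]; ring

/-- **The middle range suffices.** For all data with the known properties: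

* if `L` on `X` is not numerically semiample, then for all `a`, `b`, `c` there is a pair with dimension
  `dim X + a + b + c`, numerical dimensions `ν(K_X) + c` and `ν(L) + b + c` for which Q1 fails; in particular
  Q1 in dimension `n` implies Q1 in every dimension `m ≤ n`;
* for every set `S` of triples such that for every `N` there is `(n, s, ν)` in `S` with `s ≥ N`, `ν ≥ s + N`
  and `n ≥ ν + N`, Q1 holds if and only if it holds for the pairs with `(dim X, ν(K_X), ν(L))` in `S`;
* for every `s` and every set `S` of pairs such that for every `N` there is `(n, ν)` in `S` with `ν ≥ N` and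
  `n ≥ ν + N`, Q1 holds for all pairs with `ν(K_X) = s` if and only if it holds for those with
  `(dim X, ν(L))` in `S`. -/
theorem result (T : NefPairs.{u}) (hT : IsKnown T) :
    (∀ P : T.Pair, ¬ T.NumSemiample P → ∀ a b c : ℕ, ∃ R : T.Pair,
      T.dim R = T.dim P + (a + b + c) ∧ T.nuK R = T.nuK P + c ∧ T.nu R = T.nu P + (b + c) ∧
        ¬ T.NumSemiample R) ∧
    (∀ n m : ℕ, m ≤ n → (∀ P : T.Pair, T.dim P = n → T.NumSemiample P) →
      ∀ P : T.Pair, T.dim P = m → T.NumSemiample P) ∧
    (∀ S : Set (ℕ × ℕ × ℕ),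
      (∀ N : ℕ, ∃ n s ν : ℕ, (n, s, ν) ∈ S ∧ N ≤ s ∧ s + N ≤ ν ∧ ν + N ≤ n) →
      (Conjecture T ↔ ∀ n s ν : ℕ, (n, s, ν) ∈ S → ConjectureFor T n s ν)) ∧
    ∀ (s : ℕ) (S : Set (ℕ × ℕ)), (∀ N : ℕ, ∃ n ν : ℕ, (n, ν) ∈ S ∧ N ≤ ν ∧ ν + N ≤ n) →
      ((∀ P : T.Pair, T.nuK P = s → T.NumSemiample P) ↔
        ∀ n ν : ℕ, (n, ν) ∈ S → ConjectureFor T n s ν) := by
  have key : ∀ P : T.Pair, ¬ T.NumSemiample P → ∀ a b c : ℕ, ∃ R : T.Pair,
      T.dim R = T.dim P + (a + b + c) ∧ T.nuK R = T.nuK P + c ∧ T.nu R = T.nu P + (b + c) ∧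
        ¬ T.NumSemiample R := by
    intro P hP a b c
    obtain ⟨R, hR⟩ := spread hT P a b c
    exact ⟨R, hR.dim, hR.nuK, hR.nu, fun h => hP (hR.restrict h)⟩
  refine ⟨key, fun n m hm h P hP => ?_, fun S hS => ⟨fun h n s ν _ P _ _ _ => h P, fun h P => ?_⟩,
    fun s S hS => ⟨fun h n ν _ P _ h1 _ => h P h1, fun h P hs => ?_⟩⟩
  · by_contra hnot
    obtain ⟨R, r1, r2, r3, r4⟩ := key P hnot (n - m) 0 0
    exact r4 (h R (by omega))
  · by_contra hnot
    obtain ⟨n, s, ν, hmem, h1, h2, h3⟩ := hS (T.dim P + T.nuK P + T.nu P)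
    obtain ⟨R, r1, r2, r3, r4⟩ := key P hnot
      ((n - T.dim P) - (ν - T.nu P)) ((ν - T.nu P) - (s - T.nuK P)) (s - T.nuK P)
    exact r4 (h n s ν hmem R (by omega) (by omega) (by omega))
  · by_contra hnot
    obtain ⟨n, ν, hmem, h1, h2⟩ := hS (T.dim P + T.nu P)
    obtain ⟨R, r1, r2, r3, r4⟩ := key P hnot ((n - T.dim P) - (ν - T.nu P)) (ν - T.nu P) 0
    exact r4 (h n ν hmem R (by omega) (by omega) (by omega))

end Pool.Agent.Results.MP_1149f4_ag.MiddleRange
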